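import Mathlib

set_option autoImplicit false

/-!
# The product `b(z) b(1-z)` as a polynomial in `4z(1-z)`, modulo `p^2`

Core of the lemma AP8 (problem `MP_a1c035_nt`), with its own copy of the polynomial `b`.
-/

namespace Pool.Agent.H231.AP

open Polynomial Finset

/-- `b(z) = ∑ C(e,2m) C(2m,m) 2^(e-2m) (1-z)^m` -/
noncomputable def bq (A : Type*) [CommRing A] (e : ℕ) : A[X] :=
  ∑ m ∈ range (e / 2 + 1), C ((e.choose (2 * m) * (2 * m).choose m * 2 ^ (e - 2 * m) : ℕ) : A) * (1 - X) ^ m

/-- The third order differential operator. -/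
noncomputable def N {A : Type*} [CommRing A] (P y : A[X]) : A[X] :=
  64 * (X * (1 - X)) ^ 3 * derivative (derivative (derivative y)) +
    48 * (4 - P) * (1 - 2 * X) * (X * (1 - X)) ^ 2 * derivative (derivative y) +
    4 * (16 * (1 - 2 * X) ^ 2 - 44 * (X * (1 - X)) + P * (24 * (X * (1 - X)) - 12 * (1 - 2 * X) ^ 2)) *
      (X * (1 - X)) * derivative y +
    4 * (11 * P - 6) * (1 - 2 * X) * (X * (1 - X)) * y

section ring

variable {A : Type*} [CommRing A]

theorem N_add (P y z : A[X]) : N P (y + z) = N P y + N P z := by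
  unfold N
  simp only [derivative_add]
  ring

theorem N_sub (P y z : A[X]) : N P (y - z) = N P y - N P z := by
  unfold N
  simp only [derivative_sub]
  ring

theorem N_C_mul (P : A[X]) (a : A) (y : A[X]) : N P (C a * y) = C a * N P y := by
  unfold N
  simp only [derivative_C_mul]
  ring

theorem N_zero (P : A[X]) : N P 0 = 0 := by
  unfold N
  simp

theorem N_sum (P : A[X]) {ι : Type*} (s : Finset ι) (f : ι → A[X]) :
    N P (∑ i ∈ s, f i) = ∑ i ∈ s, N P (f i) := by
  classical
  induction s using Finset.induction_on with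
  | empty => simp [N_zero]
  | insert a s ha ih => rw [Finset.sum_insert ha, Finset.sum_insert ha, N_add, ih]

/-- The product of the two solutions. -/
theorem N_mul (P y z : A[X]) (hP : P ^ 2 = 0) (hdP : derivative P = 0)
    (E1 : 16 * X * (1 - X) * derivative (derivative y) + 16 * (1 - 2 * X) * derivative y - 3 * y =
      8 * P * (1 - X) * derivative y - 4 * P * y)
    (E2 : 16 * X * (1 - X) * derivative (derivative z) + 16 * (1 - 2 * X) * derivative z - 3 * z =
      - 8 * P * X * derivative z - 4 * P * z) :
    N P (y * z) = 0 := by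
  have D1 : 16 * X * (1 - X) * derivative (derivative (derivative y)) +
      32 * (1 - 2 * X) * derivative (derivative y) - 35 * derivative y =
      8 * P * (1 - X) * derivative (derivative y) - 12 * P * derivative y := by
    have h := congrArg derivative E1
    simp only [derivative_add, derivative_sub, derivative_mul, derivative_X, derivative_one,
      derivative_ofNat, hdP] at h
    linear_combination h
  have D2 : 16 * X * (1 - X) * derivative (derivative (derivative z)) +
      32 * (1 - 2 * X) * derivative (derivative z) - 35 * derivative z =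
      - 8 * P * X * derivative (derivative z) - 12 * P * derivative z := by
    have h := congrArg derivative E2
    simp only [derivative_add, derivative_sub, derivative_mul, derivative_X, derivative_one,
      derivative_ofNat, derivative_neg, hdP] at h
    linear_combination h
  have h1 : derivative (y * z) = derivative y * z + y * derivative z := derivative_mul
  have h2 : derivative (derivative (y * z)) = derivative (derivative y) * z +
      2 * (derivative y * derivative z) + y * derivative (derivative z) := by
    rw [h1, derivative_add, derivative_mul, derivative_mul]; ring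
  have h3 : derivative (derivative (derivative (y * z))) = derivative (derivative (derivative y)) * z +
      3 * (derivative (derivative y) * derivative z) + 3 * (derivative y * derivative (derivative z)) +
      y * derivative (derivative (derivative z)) := by
    rw [h2, derivative_add, derivative_add, derivative_mul, derivative_mul, derivative_mul,
      derivative_mul, derivative_ofNat]; ring
  unfold N
  rw [h3, h2, h1]
  generalize derivative (derivative (derivative y)) = y3 at *
  generalize derivative (derivative (derivative z)) = z3 at *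
  generalize derivative (derivative y) = y2 at *
  generalize derivative (derivative z) = z2 at *
  generalize derivative y = y1 at *
  generalize derivative z = z1 at *
  linear_combination (4 * (X * (1 - X)) ^ 2 * z) * D1 + (4 * (X * (1 - X)) ^ 2 * y) * D2 +
    (12 * (X * (1 - X)) ^ 2 * z1) * E1 + (12 * (X * (1 - X)) ^ 2 * y1) * E2 +
    ((4 * (1 - 2 * X) * (X * (1 - X)) + P * (X * (1 - X)) * (-3 * (1 - 2 * X) + 2 * (1 - X))) * z) * E1 +
    ((4 * (1 - 2 * X) * (X * (1 - X)) + P * (X * (1 - X)) * (-3 * (1 - 2 * X) - 2 * X)) * y) * E2 +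
    (16 * X * y * z + (-8) * X * y1 * z + (-48) * X ^ 2 * y * z + 24 * X ^ 2 * y * z1 +
      48 * X ^ 2 * y1 * z + 32 * X ^ 3 * y * z + (-56) * X ^ 3 * y * z1 + (-72) * X ^ 3 * y1 * z +
      32 * X ^ 4 * y * z1 + 32 * X ^ 4 * y1 * z) * hP

/-- The operator on the powers of `X (1 - X)`. -/
theorem N_pow (P : A[X]) (hP : P ^ 2 = 0) (n : ℕ) :
    N P ((X * (1 - X)) ^ n) = (1 - 2 * X) * ((4 * (n : A[X]) - P) ^ 3 * (X * (1 - X)) ^ n -
      4 * ((4 * (n : A[X]) + 1 - P) * (4 * (n : A[X]) + 2 - P) * (4 * (n : A[X]) + 3 - P)) *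
        (X * (1 - X)) ^ (n + 1)) := by
  have hd : derivative (X * (1 - X) : A[X]) = 1 - 2 * X := by
    rw [derivative_mul, derivative_sub, derivative_X, derivative_one]; ring
  have H1 : (X * (1 - X)) * derivative ((X * (1 - X)) ^ n : A[X]) =
      (n : A[X]) * (1 - 2 * X) * (X * (1 - X)) ^ n := by
    cases n with
    | zero => simp
    | succ k =>
      rw [derivative_pow_succ, hd, pow_succ]
      push_cast
      simp only [map_add, map_one, map_natCast]
      ring
  have H2 : (X * (1 - X)) * derivative (derivative ((X * (1 - X)) ^ n : A[X])) =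
      ((n : A[X]) - 1) * (1 - 2 * X) * derivative ((X * (1 - X)) ^ n : A[X]) -
        2 * (n : A[X]) * (X * (1 - X)) ^ n := by
    have h := congrArg derivative H1
    rw [derivative_mul, hd, derivative_mul, derivative_mul] at h
    simp only [derivative_sub, derivative_mul, derivative_X, derivative_one, derivative_ofNat,
      derivative_natCast] at h
    linear_combination h
  have H3 : (X * (1 - X)) * derivative (derivative (derivative ((X * (1 - X)) ^ n : A[X]))) =
      ((n : A[X]) - 2) * (1 - 2 * X) * derivative (derivative ((X * (1 - X)) ^ n : A[X])) -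
        2 * (2 * (n : A[X]) - 1) * derivative ((X * (1 - X)) ^ n : A[X]) := by
    have h := congrArg derivative H2
    rw [derivative_mul, hd, derivative_sub, derivative_mul, derivative_mul, derivative_mul] at h
    simp only [derivative_sub, derivative_mul, derivative_X, derivative_one, derivative_ofNat,
      derivative_natCast] at h
    linear_combination h
  unfold N
  rw [pow_succ ((X : A[X]) * (1 - X)) n]
  generalize derivative (derivative (derivative ((X * (1 - X)) ^ n : A[X]))) = w3 at *
  generalize derivative (derivative ((X * (1 - X)) ^ n : A[X])) = w2 at *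
  generalize derivative ((X * (1 - X)) ^ n : A[X]) = w1 at *
  generalize ((X * (1 - X)) ^ n : A[X]) = w at *
  generalize (n : A[X]) = n at *
  linear_combination (64 * (X * (1 - X)) ^ 2) * H3 +
    (X * (1 - X) * (1 - 2 * X) * (64 * (n - 2) + 48 * (4 - P))) * H2 +
    ((1 - 2 * X) ^ 2 * (n - 1) * (64 * (n - 2) + 48 * (4 - P)) - 128 * (2 * n - 1) * (X * (1 - X)) +
      4 * (16 * (1 - 2 * X) ^ 2 - 44 * (X * (1 - X)) + P * (24 * (X * (1 - X)) - 12 * (1 - 2 * X) ^ 2))) * H1 +
    ((-6) * P * X * w + 12 * P * X ^ 2 * w + (-8) * P * X ^ 3 * w + 1 * P * w + 72 * X * n * w +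
      24 * X * w + (-144) * X ^ 2 * n * w + (-72) * X ^ 2 * w + 96 * X ^ 3 * n * w +
      48 * X ^ 3 * w + (-12) * n * w) * hP

/-- The operator on a polynomial divisible by `X^i`. -/
theorem N_X_pow_mul (P V : A[X]) (i : ℕ) : ∃ G : A[X], N P (X ^ i * V) = X ^ i * G ∧
    G.eval 0 = (64 * (i : A) ^ 3 - 48 * P.eval 0 * (i : A) ^ 2) * V.eval 0 := by
  have H1 : X * derivative (X ^ i : A[X]) = (i : A[X]) * X ^ i := by
    cases i with
    | zero => simp
    | succ k =>
      rw [derivative_pow_succ, derivative_X, pow_succ]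
      push_cast
      simp only [map_add, map_one, map_natCast]
      ring
  have H2 : X * derivative (derivative (X ^ i : A[X])) =
      ((i : A[X]) - 1) * derivative (X ^ i : A[X]) := by
    have h := congrArg derivative H1
    rw [derivative_mul, derivative_mul, derivative_X, derivative_natCast] at h
    linear_combination h
  have H3 : X * derivative (derivative (derivative (X ^ i : A[X]))) =
      ((i : A[X]) - 2) * derivative (derivative (X ^ i : A[X])) := by
    have h := congrArg derivative H2
    rw [derivative_mul, derivative_mul, derivative_sub, derivative_X, derivative_natCast,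
      derivative_one] at h
    linear_combination h
  have h1 : derivative (X ^ i * V) = derivative (X ^ i) * V + X ^ i * derivative V := derivative_mul
  have h2 : derivative (derivative (X ^ i * V)) = derivative (derivative (X ^ i)) * V +
      2 * (derivative (X ^ i) * derivative V) + X ^ i * derivative (derivative V) := by
    rw [h1, derivative_add, derivative_mul, derivative_mul]; ring
  have h3 : derivative (derivative (derivative (X ^ i * V))) =
      derivative (derivative (derivative (X ^ i))) * V +
      3 * (derivative (derivative (X ^ i)) * derivative V) +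
      3 * (derivative (X ^ i) * derivative (derivative V)) +
      X ^ i * derivative (derivative (derivative V)) := by
    rw [h2, derivative_add, derivative_add, derivative_mul, derivative_mul, derivative_mul,
      derivative_mul, derivative_ofNat]; ring
  refine ⟨64 * (1 - X) ^ 3 * ((i : A[X]) * ((i : A[X]) - 1) * ((i : A[X]) - 2) * V +
      3 * (i : A[X]) * ((i : A[X]) - 1) * X * derivative V + 3 * (i : A[X]) * X ^ 2 * derivative (derivative V) +
      X ^ 3 * derivative (derivative (derivative V))) +
    48 * (4 - P) * (1 - 2 * X) * (1 - X) ^ 2 * ((i : A[X]) * ((i : A[X]) - 1) * V +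
      2 * (i : A[X]) * X * derivative V + X ^ 2 * derivative (derivative V)) +
    4 * (16 * (1 - 2 * X) ^ 2 - 44 * (X * (1 - X)) + P * (24 * (X * (1 - X)) - 12 * (1 - 2 * X) ^ 2)) *
      (1 - X) * ((i : A[X]) * V + X * derivative V) +
    4 * (11 * P - 6) * (1 - 2 * X) * (X * (1 - X)) * V, ?_, ?_⟩
  · unfold N
    rw [h3, h2, h1]
    generalize derivative (derivative (derivative V)) = V3 at *
    generalize derivative (derivative V) = V2 at *
    generalize derivative V = V1 at *
    generalize derivative (derivative (derivative (X ^ i : A[X]))) = u3 at *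
    generalize derivative (derivative (X ^ i : A[X])) = u2 at *
    generalize derivative (X ^ i : A[X]) = u1 at *
    generalize (X ^ i : A[X]) = u at *
    generalize (i : A[X]) = i at *
    have K2 : X ^ 2 * u2 = i * (i - 1) * u := by
      linear_combination X * H2 + (i - 1) * H1
    have K3 : X ^ 3 * u3 = i * (i - 1) * (i - 2) * u := by
      linear_combination X ^ 2 * H3 + (i - 2) * K2
    linear_combination (64 * (1 - X) ^ 3 * V) * K3 +
      (64 * (1 - X) ^ 3 * 3 * X * V1 + 48 * (4 - P) * (1 - 2 * X) * (1 - X) ^ 2 * V) * K2 +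
      (64 * (1 - X) ^ 3 * 3 * X ^ 2 * V2 + 48 * (4 - P) * (1 - 2 * X) * (1 - X) ^ 2 * 2 * X * V1 +
        4 * (16 * (1 - 2 * X) ^ 2 - 44 * (X * (1 - X)) +
          P * (24 * (X * (1 - X)) - 12 * (1 - 2 * X) ^ 2)) * (1 - X) * V) * H1
  · simp only [eval_add, eval_sub, eval_mul, eval_pow, eval_X, eval_one, eval_ofNat, eval_natCast]
    ring

/-- `b(1) = 2^e`. -/
theorem bq_eval_one (e : ℕ) : (bq A e).eval 1 = 2 ^ e := by
  unfold bq
  rw [eval_finsetSum, Finset.sum_range_succ', Finset.sum_eq_zero]
  · simp
  · intro m _
    simp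

theorem natDegree_bq_le (e : ℕ) : (bq A e).natDegree ≤ e / 2 := by
  unfold bq
  refine natDegree_sum_le_of_forall_le _ _ fun m hm => ?_
  have hm' : m ≤ e / 2 := by have := Finset.mem_range.1 hm; omega
  refine (natDegree_C_mul_le _ _).trans ((natDegree_pow_le).trans ?_)
  have : (1 - X : A[X]).natDegree ≤ 1 := by
    refine (natDegree_sub_le _ _).trans ?_
    rw [natDegree_one]
    exact max_le (by norm_num) natDegree_X_le
  calc m * (1 - X : A[X]).natDegree ≤ m * 1 := Nat.mul_le_mul_left _ this
    _ ≤ e / 2 := by omega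

/-- `∑ C(e,2m) C(2m,m) 2^(e-2m) = C(2e,e)`. -/
theorem sum_choose_eq (e : ℕ) :
    ∑ m ∈ range (e / 2 + 1), e.choose (2 * m) * (2 * m).choose m * 2 ^ (e - 2 * m) = e.centralBinom := by
  have key : ((1 + X : ℕ[X]) ^ (2 * e)) = ((1 + X ^ 2) + 2 * X) ^ e := by
    rw [pow_mul]; congr 1; ring
  have hc := congrArg (fun f : ℕ[X] => f.coeff e) key
  rw [coeff_one_add_X_pow, add_pow, finsetSum_coeff] at hc
  have hterm : ∀ m ∈ range (e + 1), ((1 + X ^ 2 : ℕ[X]) ^ m * (2 * X) ^ (e - m) * (e.choose m : ℕ[X])).coeff e =
      if 2 ∣ m then e.choose m * m.choose (m / 2) * 2 ^ (e - m) else 0 := by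
    intro m hm
    have hm' : m ≤ e := by have := Finset.mem_range.1 hm; omega
    have h1 : ((1 + X ^ 2 : ℕ[X]) ^ m * (2 * X) ^ (e - m) * (e.choose m : ℕ[X])) =
        C (e.choose m * 2 ^ (e - m)) * ((expand ℕ 2 ((1 + X) ^ m)) * X ^ (e - m)) := by
      have hC : (C (e.choose m * 2 ^ (e - m)) : ℕ[X]) = (e.choose m : ℕ[X]) * 2 ^ (e - m) := by
        rw [map_mul, map_pow]; rfl
      rw [map_pow, map_add, map_one, expand_X, mul_pow, hC]
      ring
    rw [h1, coeff_C_mul]
    have h2 : e = m + (e - m) := by omega
    have h3 : ((expand ℕ 2 ((1 + X) ^ m)) * X ^ (e - m)).coeff e = (expand ℕ 2 ((1 + X) ^ m)).coeff m := by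
      conv_lhs => rw [h2]
      rw [show m + (e - m) - m = e - m by omega]
      exact coeff_mul_X_pow _ _ _
    rw [h3, coeff_expand (by norm_num), coeff_one_add_X_pow]
    split_ifs
    · simp; ring
    · simp
  rw [Finset.sum_congr rfl hterm] at hc
  have hfin : ∑ m ∈ range (e + 1), (if 2 ∣ m then e.choose m * m.choose (m / 2) * 2 ^ (e - m) else 0) =
      ∑ m ∈ range (e / 2 + 1), e.choose (2 * m) * (2 * m).choose m * 2 ^ (e - 2 * m) := by
    rw [← Finset.sum_filter]
    symm
    refine Finset.sum_nbij' (fun m => 2 * m) (fun m => m / 2) ?_ ?_ ?_ ?_ ?_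
    · intro m hm
      simp only [Finset.mem_range, Finset.mem_filter] at hm ⊢
      omega
    · intro m hm
      simp only [Finset.mem_range, Finset.mem_filter] at hm ⊢
      omega
    · intro m _; simp
    · intro m hm
      simp only [Finset.mem_range, Finset.mem_filter] at hm
      omega
    · intro m _
      simp
  rw [hfin] at hc
  rw [← hc, Nat.centralBinom_eq_two_mul_choose, Nat.cast_id]

theorem bq_eval_zero (e : ℕ) : (bq A e).eval 0 = ((e.centralBinom : ℕ) : A) := by
  unfold bq
  rw [eval_finsetSum, ← sum_choose_eq, Nat.cast_sum]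
  refine Finset.sum_congr rfl fun m _ => ?_
  simp

end ring

/-- The coefficient ring. -/
abbrev RR (p : ℕ) : Type := ZMod (p ^ 2)

theorem cancel_nat {p : ℕ} {n : ℕ} (hn : n.Coprime p) {x : RR p}
    (hx : (n : RR p) * x = 0) : x = 0 := by
  have hu : IsUnit (n : RR p) := (ZMod.isUnit_iff_coprime n (p ^ 2)).2 (hn.pow_right 2)
  exact (hu.mul_right_eq_zero).1 hx

theorem natCast_sq_eq_zero (p : ℕ) : (p : RR p) ^ 2 = 0 := by
  have := ZMod.natCast_self (p ^ 2)
  push_cast at this
  exact this

theorem natCast_sq_eq_zero_poly (p : ℕ) : (p : (RR p)[X]) ^ 2 = 0 := by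
  have h : (C ((p : RR p) ^ 2) : (RR p)[X]) = 0 := by
    rw [natCast_sq_eq_zero, map_zero]
  rw [map_pow, map_natCast] at h
  exact h

/-- Uniqueness of the solution of the third order equation. -/
theorem N_unique {p : ℕ} (hp : p.Prime) (h3 : 3 < p) (W : (RR p)[X])
    (hN : N (p : (RR p)[X]) W = 0) (h0 : W.coeff 0 = 0) (hdeg : ∀ i, p ≤ i → W.coeff i = 0) :
    W = 0 := by
  have key : ∀ i, i < p → W.coeff i = 0 := by
    intro i
    induction i using Nat.strong_induction_on with
    | _ i ih =>
      intro hi
      rcases Nat.eq_zero_or_pos i with rfl | hpos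
      · exact h0
      have hdvd : X ^ i ∣ W := by
        rw [X_pow_dvd_iff]
        intro d hd
        exact ih d hd (by omega)
      obtain ⟨V, rfl⟩ := hdvd
      obtain ⟨G, hG, hG0⟩ := N_X_pow_mul (p : (RR p)[X]) V i
      rw [hN] at hG
      have hG1 : G.eval 0 = 0 := by
        rw [← coeff_zero_eq_eval_zero]
        have := coeff_X_pow_mul G i 0
        rw [← hG, coeff_zero] at this
        exact this.symm
      rw [hG1, eval_natCast] at hG0
      have hco : (X ^ i * V).coeff i = V.eval 0 := by
        rw [← coeff_zero_eq_eval_zero]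
        have := coeff_X_pow_mul V i 0
        rwa [zero_add] at this
      rw [hco]
      have hcop : (256 * i ^ 4).Coprime p := by
        have h2 : Nat.Coprime 2 p := by
          rw [Nat.coprime_primes Nat.prime_two hp]; omega
        have h1 : Nat.Coprime i p := (Nat.coprime_of_lt_prime hpos.ne' hi hp).symm
        refine Nat.Coprime.mul_left ?_ (h1.pow_left 4)
        have : (256 : ℕ) = 2 ^ 8 := by norm_num
        rw [this]
        exact h2.pow_left 8
      refine cancel_nat hcop ?_
      push_cast
      have hpp := natCast_sq_eq_zero p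
      linear_combination (-(4 * (i : RR p) + 3 * (p : RR p))) * hG0 +
        (144 * (i : RR p) ^ 2 * V.eval 0) * hpp
  ext i
  rw [coeff_zero]
  by_cases hi : i < p
  · exact key i hi
  · exact hdeg i (by omega)

theorem core (hode : ∀ (A : Type) [CommRing A] (p e : ℕ), p = 2 * e + 1 →
    16 * X * (1 - X) * derivative (derivative (bq A e)) + 16 * (1 - 2 * X) * derivative (bq A e) - 3 * bq A e =
      8 * (p : A[X]) * (1 - X) * derivative (bq A e) - 4 * (p : A[X]) * bq A e + (p : A[X]) ^ 2 * bq A e)
    (p : ℕ) (hp : p.Prime) (h3 : 3 < p) (h : ℕ → RR p)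
    (h0 : h 0 = 2 ^ ((p - 1) / 2) * ((((p - 1) / 2).centralBinom : ℕ) : RR p))
    (hr : ∀ j : ℕ, j < (p - 1) / 2 → (4 * ((j : RR p) + 1) - p) ^ 3 * h (j + 1) =
      (4 * (j : RR p) + 1 - p) * (4 * (j : RR p) + 2 - p) *
        (4 * (j : RR p) + 3 - p) * h j) :
    bq (RR p) ((p - 1) / 2) * (bq (RR p) ((p - 1) / 2)).comp (1 - X) =
      ∑ j ∈ range ((p - 1) / 2 + 1), C (h j) * (4 * X * (1 - X)) ^ j := by
  have hodd : p % 2 = 1 := by
    rcases hp.eq_two_or_odd with h | h
    · omega
    · exact h
  obtain ⟨e, he⟩ : ∃ e, p = 2 * e + 1 := ⟨p / 2, by omega⟩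
  have hee : (p - 1) / 2 = e := by omega
  rw [hee] at h0 hr ⊢
  have he1 : 2 ≤ e := by omega
  have hP2 := natCast_sq_eq_zero_poly p
  have hpp := natCast_sq_eq_zero p
  have hdP : derivative (p : (RR p)[X]) = 0 := derivative_natCast
  have E := hode (RR p) p e he
  set b := bq (RR p) e with hb
  set P := (p : (RR p)[X]) with hPdef
  have E1 : 16 * X * (1 - X) * derivative (derivative b) + 16 * (1 - 2 * X) * derivative b - 3 * b =
      8 * P * (1 - X) * derivative b - 4 * P * b := by
    linear_combination E + b * hP2
  have hc1 : derivative (b.comp (1 - X)) = - (derivative b).comp (1 - X) := by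
    rw [derivative_comp, derivative_sub, derivative_one, derivative_X]; ring
  have hc2 : derivative (derivative (b.comp (1 - X))) = (derivative (derivative b)).comp (1 - X) := by
    rw [hc1, derivative_neg, derivative_comp, derivative_sub, derivative_one, derivative_X]; ring
  have E2 : 16 * X * (1 - X) * derivative (derivative (b.comp (1 - X))) +
      16 * (1 - 2 * X) * derivative (b.comp (1 - X)) - 3 * b.comp (1 - X) =
      - 8 * P * X * derivative (b.comp (1 - X)) - 4 * P * b.comp (1 - X) := by
    have hh := congrArg (fun f => f.comp (1 - X)) E1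
    simp only [add_comp, sub_comp, mul_comp, X_comp, one_comp, ofNat_comp, hPdef, natCast_comp] at hh
    rw [hc2, hc1, hPdef]
    linear_combination hh
  have hNB : N P (b * b.comp (1 - X)) = 0 := N_mul P _ _ hP2 hdP E1 E2
  -- vanishing of the last coefficient
  have hstep : ∀ j, j < e → (4 * ((j : RR p) + 1) - p) ^ 3 * h (j + 1) = 0 → h (j + 1) = 0 := by
    intro j hj hz
    have hcop : (4096 * (j + 1) ^ 6).Coprime p := by
      have h2 : Nat.Coprime 2 p := by
        rw [Nat.coprime_primes Nat.prime_two hp]; omega
      have h1 : Nat.Coprime (j + 1) p :=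
        (Nat.coprime_of_lt_prime (Nat.succ_ne_zero j) (by omega) hp).symm
      refine Nat.Coprime.mul_left ?_ (h1.pow_left 6)
      have : (4096 : ℕ) = 2 ^ 12 := by norm_num
      rw [this]
      exact h2.pow_left 12
    refine cancel_nat hcop ?_
    push_cast
    have e1 : (4096 * ((j : RR p) + 1) ^ 6) =
        ((4 * ((j : RR p) + 1) + p) * (4 * ((j : RR p) + 1) - p)) ^ 3 := by
      have : (4 * ((j : RR p) + 1) + p) * (4 * ((j : RR p) + 1) - p) =
          16 * ((j : RR p) + 1) ^ 2 := by
        linear_combination (-1 : RR p) * hpp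
      rw [this]; ring
    rw [e1, mul_pow, mul_assoc, hz, mul_zero]
  have hhalf : h (e / 2 + 1) = 0 := by
    refine hstep (e / 2) (by omega) ?_
    rw [hr (e / 2) (by omega)]
    rcases Nat.even_or_odd' e with ⟨k, hk | hk⟩
    · have h1 : e / 2 = k := by omega
      have h2 : p = 4 * k + 1 := by omega
      have h3' : (p : RR p) = 4 * (k : RR p) + 1 := by
        have := congrArg (Nat.cast (R := RR p)) h2
        push_cast at this
        exact this
      rw [h1]
      linear_combination (-((4 * (k : RR p) + 2 - p) * (4 * (k : RR p) + 3 - p) * h k)) * h3'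
    · have h1 : e / 2 = k := by omega
      have h2 : p = 4 * k + 3 := by omega
      have h3' : (p : RR p) = 4 * (k : RR p) + 3 := by
        have := congrArg (Nat.cast (R := RR p)) h2
        push_cast at this
        exact this
      rw [h1]
      linear_combination (-((4 * (k : RR p) + 1 - p) * (4 * (k : RR p) + 2 - p) * h k)) * h3'
  have hlast : ∀ j, e / 2 + 1 ≤ j → j ≤ e → h j = 0 := by
    intro j hj
    induction j, hj using Nat.le_induction with
    | base => intro _; exact hhalf
    | succ j hj ih =>
      intro hje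
      refine hstep j (by omega) ?_
      rw [hr j (by omega), ih (by omega), mul_zero]
  have hhe : h e = 0 := hlast e (by omega) le_rfl
  -- the sum satisfies the same equation
  have hNS : N P (∑ j ∈ range (e + 1), C (h j) * (4 * X * (1 - X)) ^ j) = 0 := by
    have hterm : ∀ j ∈ range (e + 1), N P (C (h j) * (4 * X * (1 - X)) ^ j) =
        (1 - 2 * X) * (C (h j) * (4 * (j : (RR p)[X]) - P) ^ 3 * (4 * X * (1 - X)) ^ j -
          C (h (j + 1)) * (4 * ((j + 1 : ℕ) : (RR p)[X]) - P) ^ 3 * (4 * X * (1 - X)) ^ (j + 1)) -
        (if j = e then (1 - 2 * X) * (- (C (h (e + 1)) *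
          (4 * ((e + 1 : ℕ) : (RR p)[X]) - P) ^ 3 * (4 * X * (1 - X)) ^ (e + 1))) else 0) := by
      intro j hj
      have hj' : j ≤ e := by have := Finset.mem_range.1 hj; omega
      have hx : (4 * X * (1 - X) : (RR p)[X]) ^ j = C ((4 : RR p) ^ j) * (X * (1 - X)) ^ j := by
        rw [map_pow, ← mul_pow]; congr 1
        rw [show (C (4 : RR p) : (RR p)[X]) = 4 from rfl]; ring
      have hx1 : (4 * X * (1 - X) : (RR p)[X]) ^ (j + 1) =
          4 * (C ((4 : RR p) ^ j) * (X * (1 - X)) ^ (j + 1)) := by
        rw [pow_succ (4 * X * (1 - X) : (RR p)[X]), hx]; ring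
      rw [hx, N_C_mul, N_C_mul, N_pow P hP2 j]
      rcases Nat.lt_or_ge j e with hlt | hge
      · rw [if_neg (by omega), hx1]
        have hrj := congrArg (C : RR p → (RR p)[X]) (hr j hlt)
        simp only [map_mul, map_pow, map_sub, map_add, map_natCast, map_one, map_ofNat] at hrj
        rw [← hPdef] at hrj
        push_cast
        linear_combination ((1 - 2 * X) * 4 * C ((4 : RR p) ^ j) * (X * (1 - X)) ^ (j + 1)) * hrj
      · have hje : j = e := by omega
        subst hje
        rw [if_pos rfl, hhe]
        simp only [map_zero, zero_mul]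
        ring
    rw [N_sum, Finset.sum_congr rfl hterm, Finset.sum_sub_distrib, ← Finset.mul_sum,
      Finset.sum_range_sub' (fun j => C (h j) * (4 * (j : (RR p)[X]) - P) ^ 3 *
        (4 * X * (1 - X)) ^ j) (e + 1), Finset.sum_ite_eq' (range (e + 1)) e,
      if_pos (Finset.mem_range.2 (Nat.lt_succ_self e))]
    push_cast
    linear_combination (-(1 - 2 * X) * C (h 0) * P) * hP2
  -- degrees
  have hdb : b.natDegree ≤ e / 2 := natDegree_bq_le e
  have hd1 : (1 - X : (RR p)[X]).natDegree ≤ 1 := by
    refine (natDegree_sub_le _ _).trans ?_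
    rw [natDegree_one]
    exact max_le (by norm_num) natDegree_X_le
  have hdc : (b.comp (1 - X)).natDegree ≤ e / 2 := by
    refine natDegree_comp_le.trans ?_
    calc b.natDegree * (1 - X : (RR p)[X]).natDegree ≤ b.natDegree * 1 := Nat.mul_le_mul_left _ hd1
      _ ≤ e / 2 := by omega
  have hdB : (b * b.comp (1 - X)).natDegree ≤ 2 * e := by
    refine natDegree_mul_le.trans ?_
    omega
  have hdS : (∑ j ∈ range (e + 1), C (h j) * (4 * X * (1 - X)) ^ j).natDegree ≤ 2 * e := by
    refine natDegree_sum_le_of_forall_le _ _ fun j hj => ?_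
    have hj' : j ≤ e := by have := Finset.mem_range.1 hj; omega
    refine (natDegree_C_mul_le _ _).trans (natDegree_pow_le.trans ?_)
    have hq : (4 * X * (1 - X) : (RR p)[X]).natDegree ≤ 2 := by
      refine natDegree_mul_le.trans ?_
      have : (4 * X : (RR p)[X]).natDegree ≤ 1 := by
        rw [show (4 * X : (RR p)[X]) = C 4 * X from rfl]
        exact (natDegree_C_mul_le _ _).trans natDegree_X_le
      omega
    calc j * (4 * X * (1 - X) : (RR p)[X]).natDegree ≤ j * 2 := Nat.mul_le_mul_left _ hq
      _ ≤ 2 * e := by omega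
  have hfin : b * b.comp (1 - X) - ∑ j ∈ range (e + 1), C (h j) * (4 * X * (1 - X)) ^ j = 0 := by
    refine N_unique hp h3 _ ?_ ?_ ?_
    · rw [← hPdef, N_sub, hNB, hNS, sub_zero]
    · rw [coeff_sub, mul_coeff_zero, coeff_zero_eq_eval_zero, coeff_zero_eq_eval_zero,
        coeff_zero_eq_eval_zero, eval_comp, eval_sub, eval_one, eval_X, sub_zero, hb, bq_eval_zero,
        bq_eval_one, eval_finsetSum, Finset.sum_range_succ', Finset.sum_eq_zero]
      · simp only [pow_zero, mul_one, eval_C, zero_add]
        rw [h0]; ring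
      · intro j _
        simp
    · intro i hi
      refine coeff_eq_zero_of_natDegree_lt ?_
      refine lt_of_le_of_lt (natDegree_sub_le _ _) ?_
      have := max_le hdB hdS
      omega
  exact sub_eq_zero.1 hfin

end Pool.Agent.H231.AP
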