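import Pool.Agent.H546.APStm
import Pool.Agent.H231.AP8core

set_option autoImplicit false

namespace Pool.Agent.H231.AP

/-- **AP8.** -/
theorem h_S_I : Pool.Agent.H546.AP.S_I := by
  intro hb p hp h3 h h0 hr
  exact core (fun A _ p e he => hb A p e he) p hp.out h3 h h0 hr

end Pool.Agent.H231.AP
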