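import Pool.Agent.H283.HT.Stm

set_option autoImplicit false

namespace Pool.Agent.H231.HTH1

open Pool.Agent.H283.HT

/-- **H1**. If `HB` holds for `a, b` then no direction lights `K` over `q a` and `q b`. -/
theorem H1_done (hRC : S_RC) : S_H1 := by
  intro K q hB hD hP a b hab hHB hG
  obtain ⟨ν, hν, hmax, heq⟩ := hHB
  obtain ⟨d, hd⟩ := hG
  obtain ⟨-, -, h3, -⟩ := hRC K hB
  obtain ⟨x, hxK, hx⟩ := hP.mem b
  obtain ⟨y, hyK, hy⟩ := hP.mem a
  have hnx : ((ν, (0 : ℝ)) : P3) ∈ NK K x := by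
    intro z hz
    have h := hmax z.1 ⟨z, hz, rfl⟩
    rw [← hx] at h
    simp only [ip, zero_mul, add_zero]
    exact h
  have hny : ((-ν, (0 : ℝ)) : P3) ∈ NK K y := by
    intro z hz
    have h := hmax (-z.1) (hD.sym _ ⟨z, hz, rfl⟩)
    rw [← hy] at heq
    simp only [ip, dt, Prod.fst_neg, Prod.snd_neg, zero_mul, add_zero] at h heq ⊢
    linarith
  have hne1 : ((ν, (0 : ℝ)) : P3) ≠ 0 := by
    intro h
    exact hν (congrArg Prod.fst h)
  have hne2 : ((-ν, (0 : ℝ)) : P3) ≠ 0 := by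
    intro h
    exact hν (neg_eq_zero.1 (congrArg Prod.fst h))
  have e1 := h3 x _ d hnx hne1 (hd b hab le_rfl x hxK hx)
  have e2 := h3 y _ d hny hne2 (hd a le_rfl hab y hyK hy)
  simp only [ip, dt, Prod.fst_neg, Prod.snd_neg, zero_mul, add_zero] at e1 e2
  linarith

end Pool.Agent.H231.HTH1
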