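import Pool.Agent.H676.LC.Stm

/-!
# Project LC (helper676), part READ2 (helper231): gates only read inside their support
-/

set_option autoImplicit false
set_option linter.all false

namespace Pool.Agent.H231.LCREAD2

open Finset Pool.Agent.H676.SC Pool.Agent.H676.ED Pool.Agent.H676.LC

theorem exw : ∀ z : Fd 2, ∃ w : Fd 2, w ≠ 0 ∧ w ≠ z := by decide

theorem shf_apply {X : Type} (p : X → Fd 2) (u : X × Fd 2) : shf p u = (u.1, u.2 + p u.1) := rfl

theorem mem_of {X : Type} [DecidableEq X] {I : Finset X} {u v : X × Fd 2}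
    (key : ∀ p : X → Fd 2, (∀ x ∈ I, p x = 0) → (shf p u = u ∨ shf p u = v)) : u.1 ∈ I := by
  by_contra hu
  obtain ⟨w, hw, hw'⟩ := exw (v.2 - u.2)
  have hp : ∀ x ∈ I, (Pi.single u.1 w : X → Fd 2) x = 0 := fun x hx =>
    Pi.single_eq_of_ne (fun h : x = u.1 => hu (by rw [← h]; exact hx)) _
  rcases key (Pi.single u.1 w) hp with h | h
  · have h1 := congrArg Prod.snd h
    rw [shf_apply] at h1
    simp only [Pi.single_eq_same] at h1
    exact hw (add_eq_left.1 h1)
  · have h1 := congrArg Prod.snd h
    rw [shf_apply] at h1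
    simp only [Pi.single_eq_same] at h1
    exact hw' (eq_sub_of_add_eq' h1)

theorem t_READ2 : S_READ2 := by
  intro X D L _ C g I hI u v hr huv
  have key : ∀ p : X → Fd 2, (∀ x ∈ I, p x = 0) →
      (shf p u = u ∧ shf p v = v) ∨ (shf p u = v ∧ shf p v = u) := by
    intro p hp
    have h1 := congrArg Prod.fst (hI p hp)
    simp only [Circuit.wiring, hr, Option.map_some, Option.some.injEq] at h1
    have h2 := congrFun h1 (SimpleGraph.edge u v)
    unfold bit at h2
    have h3 : (SimpleGraph.edge u v).Adj (shf p u) (shf p v) ↔ (SimpleGraph.edge u v).Adj u v := by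
      have h4 := decide_eq_decide.1 h2
      exact h4
    have h5 : (SimpleGraph.edge u v).Adj u v := by
      rw [SimpleGraph.edge_adj]
      exact ⟨Or.inl ⟨rfl, rfl⟩, huv⟩
    have h6 := h3.2 h5
    rw [SimpleGraph.edge_adj] at h6
    exact h6.1
  constructor
  · exact mem_of (v := v) fun p hp => (key p hp).imp (fun h => h.1) (fun h => h.1)
  · exact mem_of (v := u) fun p hp => (key p hp).imp (fun h => h.2) (fun h => h.2)

end Pool.Agent.H231.LCREAD2
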