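import Pool.Agent.H683.SC.Stm

/-!
# Project SC (helper683), part PROG (helper231): the state sum is computed by the program
-/

set_option autoImplicit false
set_option linter.all false

namespace Pool.Agent.H231.SCPROG

open Pool.Agent.H633R2 Pool.Agent.H683.SC

variable {q : ℕ}

/-- Extension by `none`. -/
def ext {N : ℕ} (f : Fin N → Option (Fin q)) (v : ℕ) : Option (Fin q) :=
  if h : v < N then f ⟨v, h⟩ else none

/-- All edges are compatible. -/
def Cond (E : List (ℕ × ℕ)) (F : ℕ → Option (Fin q)) : Prop := ∀ e ∈ E, cmp (F e.1) (F e.2)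

open Classical in
/-- The state sum with a weight. -/
noncomputable def T (s : ℕ × List (ℕ × ℕ) × List (ℕ × ℕ)) (g : (ℕ → Option (Fin q)) → ℤ) : ℤ :=
  ∑ f : Fin s.1 → Option (Fin q), if Cond s.2.2 (ext f) then
    (∏ v, wgt (f v)) * g (fun a => ext f (look s.2.1 a)) else 0

/-- The conditions on the states. -/
structure Inv (s : ℕ × List (ℕ × ℕ) × List (ℕ × ℕ)) : Prop where
  pos : 0 < s.1
  lab : ∀ p ∈ s.2.1, p.2 < s.1
  edge : ∀ e ∈ s.2.2, e.2 < e.1 ∧ e.1 < s.1

theorem look_lt {L : List (ℕ × ℕ)} {N : ℕ} (h0 : 0 < N) (h : ∀ p ∈ L, p.2 < N) (a : ℕ) :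
    look L a < N := by
  unfold look
  split
  · next p hp => exact h p (List.mem_of_find?_eq_some hp)
  · exact h0

theorem look_cons (L : List (ℕ × ℕ)) (a x N : ℕ) :
    look ((a, N) :: L) x = if x = a then N else look L x := by
  unfold look
  rw [List.find?_cons]
  by_cases h : x = a
  · subst h
    simp
  · have h1 : ¬ a = x := fun e => h e.symm
    simp [h, h1]

theorem inv_stp {s : ℕ × List (ℕ × ℕ) × List (ℕ × ℕ)} (hs : Inv s) (c : Cm) : Inv (stp s c) := by
  obtain ⟨h1, h2, h3⟩ := hs
  obtain ⟨a, b⟩ := c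
  rcases b with _ | b
  · refine ⟨Nat.succ_pos _, ?_, ?_⟩
    · intro p hp
      rcases List.mem_cons.1 hp with h | h
      · rw [h]
        exact Nat.lt_succ_self _
      · exact Nat.lt_succ_of_lt (h2 p h)
    · intro e he
      exact ⟨(h3 e he).1, Nat.lt_succ_of_lt (h3 e he).2⟩
  · refine ⟨Nat.succ_pos _, ?_, ?_⟩
    · intro p hp
      exact Nat.lt_succ_of_lt (h2 p hp)
    · intro e he
      rcases List.mem_cons.1 he with h | h
      · rw [h]
        exact ⟨look_lt h1 h2 _, Nat.lt_succ_self _⟩
      rcases List.mem_cons.1 h with h | h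
      · rw [h]
        exact ⟨look_lt h1 h2 _, Nat.lt_succ_self _⟩
      · exact ⟨(h3 e h).1, Nat.lt_succ_of_lt (h3 e h).2⟩

theorem ext_snoc_lt {N : ℕ} (f : Fin N → Option (Fin q)) (x : Option (Fin q)) {v : ℕ} (hv : v < N) :
    ext (Fin.snoc f x : Fin (N + 1) → Option (Fin q)) v = ext f v := by
  unfold ext
  rw [dif_pos hv, dif_pos (Nat.lt_succ_of_lt hv)]
  exact Fin.snoc_castSucc (α := fun _ => Option (Fin q)) x f ⟨v, hv⟩

theorem ext_snoc_last {N : ℕ} (f : Fin N → Option (Fin q)) (x : Option (Fin q)) :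
    ext (Fin.snoc f x : Fin (N + 1) → Option (Fin q)) N = x := by
  unfold ext
  rw [dif_pos (Nat.lt_succ_self N)]
  exact Fin.snoc_last (α := fun _ => Option (Fin q)) x f

/-- The weight before a command. -/
noncomputable def gs (c : Cm) (g : (ℕ → Option (Fin q)) → ℤ) : (ℕ → Option (Fin q)) → ℤ :=
  fun σ => match c with
    | (a, none) => ∑ x : Option (Fin q), wgt x * g (Function.update σ a x)
    | (a, some b) => edg (σ a) (σ b) * g σ

theorem cond_snoc {N : ℕ} {E : List (ℕ × ℕ)} (hE : ∀ e ∈ E, e.2 < e.1 ∧ e.1 < N)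
    (f : Fin N → Option (Fin q)) (x : Option (Fin q)) :
    Cond E (ext (Fin.snoc f x : Fin (N + 1) → Option (Fin q))) ↔ Cond E (ext f) := by
  unfold Cond
  refine forall_congr' fun e => forall_congr' fun he => ?_
  obtain ⟨h1, h2⟩ := hE e he
  rw [ext_snoc_lt f x h2, ext_snoc_lt f x (h1.trans h2)]

theorem sum_snoc {N : ℕ} (Φ : (Fin (N + 1) → Option (Fin q)) → ℤ) :
    ∑ f, Φ f = ∑ f : Fin N → Option (Fin q), ∑ x : Option (Fin q), Φ (Fin.snoc f x) := by
  rw [Finset.sum_comm, ← Fintype.sum_prod_type']
  exact (Fintype.sum_equiv (Fin.snocEquiv fun _ : Fin (N + 1) => Option (Fin q)) _ _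
    fun x => rfl).symm

theorem T_stp {s : ℕ × List (ℕ × ℕ) × List (ℕ × ℕ)} (hs : Inv s) (c : Cm)
    (g : (ℕ → Option (Fin q)) → ℤ) : T (stp s c) g = T s (gs c g) := by
  classical
  obtain ⟨N, L, E⟩ := s
  obtain ⟨h1, h2, h3⟩ := hs
  obtain ⟨a, b⟩ := c
  rcases b with _ | b
  · change (∑ f : Fin (N + 1) → Option (Fin q), if Cond E (ext f) then
      (∏ v, wgt (f v)) * g (fun x => ext f (look ((a, N) :: L) x)) else 0) =
      ∑ f : Fin N → Option (Fin q), if Cond E (ext f) then
      (∏ v, wgt (f v)) * gs (a, none) g (fun x => ext f (look L x)) else 0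
    rw [sum_snoc]
    refine Finset.sum_congr rfl fun f _ => ?_
    have e1 : ∀ x : Option (Fin q), (if Cond E (ext (Fin.snoc f x : Fin (N + 1) → Option (Fin q)))
        then (∏ v, wgt ((Fin.snoc f x : Fin (N + 1) → Option (Fin q)) v)) *
          g (fun y => ext (Fin.snoc f x : Fin (N + 1) → Option (Fin q)) (look ((a, N) :: L) y))
        else 0) = if Cond E (ext f) then (∏ v, wgt (f v)) *
          (wgt x * g (Function.update (fun y => ext f (look L y)) a x)) else 0 := by
      intro x
      refine if_congr (cond_snoc h3 f x) ?_ rfl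
      rw [Fin.prod_univ_castSucc]
      have e2 : ∀ i : Fin N, (Fin.snoc f x : Fin (N + 1) → Option (Fin q)) i.castSucc = f i :=
        fun i => Fin.snoc_castSucc (α := fun _ => Option (Fin q)) x f i
      have e3 : (Fin.snoc f x : Fin (N + 1) → Option (Fin q)) (Fin.last N) = x :=
        Fin.snoc_last (α := fun _ => Option (Fin q)) x f
      have e4 : (fun y => ext (Fin.snoc f x : Fin (N + 1) → Option (Fin q))
          (look ((a, N) :: L) y)) = Function.update (fun y => ext f (look L y)) a x := by
        funext y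
        rw [look_cons]
        by_cases hy : y = a
        · rw [if_pos hy, hy, Function.update_self, ext_snoc_last]
        · rw [if_neg hy, Function.update_of_ne hy, ext_snoc_lt _ _ (look_lt h1 h2 y)]
      rw [e3, e4, mul_assoc]
      simp only [e2]
    rw [Finset.sum_congr rfl fun x _ => e1 x]
    by_cases hc : Cond E (ext f)
    · simp only [if_pos hc]
      rw [← Finset.mul_sum]
      rfl
    · simp only [if_neg hc]
      exact Finset.sum_const_zero
  · change (∑ f : Fin (N + 1) → Option (Fin q), if Cond ((N, look L a) :: (N, look L b) :: E)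
      (ext f) then (∏ v, wgt (f v)) * g (fun x => ext f (look L x)) else 0) =
      ∑ f : Fin N → Option (Fin q), if Cond E (ext f) then
      (∏ v, wgt (f v)) * gs (a, some b) g (fun x => ext f (look L x)) else 0
    rw [sum_snoc]
    refine Finset.sum_congr rfl fun f _ => ?_
    have hla := look_lt h1 h2 a
    have hlb := look_lt h1 h2 b
    have e1 : ∀ x : Option (Fin q), (if Cond ((N, look L a) :: (N, look L b) :: E)
        (ext (Fin.snoc f x : Fin (N + 1) → Option (Fin q)))
        then (∏ v, wgt ((Fin.snoc f x : Fin (N + 1) → Option (Fin q)) v)) *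
          g (fun y => ext (Fin.snoc f x : Fin (N + 1) → Option (Fin q)) (look L y))
        else 0) = if Cond E (ext f) then (∏ v, wgt (f v)) *
          ((if cmp x (ext f (look L a)) ∧ cmp x (ext f (look L b)) then wgt x else 0) *
            g (fun y => ext f (look L y))) else 0 := by
      intro x
      have e0 : Cond ((N, look L a) :: (N, look L b) :: E)
          (ext (Fin.snoc f x : Fin (N + 1) → Option (Fin q))) ↔
          (cmp x (ext f (look L a)) ∧ cmp x (ext f (look L b))) ∧ Cond E (ext f) := by
        unfold Cond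
        rw [List.forall_mem_cons, List.forall_mem_cons]
        rw [show (∀ e ∈ E, cmp (ext (Fin.snoc f x : Fin (N + 1) → Option (Fin q)) e.1)
          (ext (Fin.snoc f x : Fin (N + 1) → Option (Fin q)) e.2)) ↔
          ∀ e ∈ E, cmp (ext f e.1) (ext f e.2) from cond_snoc h3 f x]
        dsimp only
        rw [ext_snoc_last, ext_snoc_lt f x hla, ext_snoc_lt f x hlb, and_assoc]
      have e2 : ∀ i : Fin N, (Fin.snoc f x : Fin (N + 1) → Option (Fin q)) i.castSucc = f i :=
        fun i => Fin.snoc_castSucc (α := fun _ => Option (Fin q)) x f i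
      have e3 : (Fin.snoc f x : Fin (N + 1) → Option (Fin q)) (Fin.last N) = x :=
        Fin.snoc_last (α := fun _ => Option (Fin q)) x f
      have e4 : (fun y => ext (Fin.snoc f x : Fin (N + 1) → Option (Fin q)) (look L y)) =
          fun y => ext f (look L y) := by
        funext y
        rw [ext_snoc_lt _ _ (look_lt h1 h2 y)]
      have e5 : ∏ v, wgt ((Fin.snoc f x : Fin (N + 1) → Option (Fin q)) v) =
          (∏ v, wgt (f v)) * wgt x := by
        rw [Fin.prod_univ_castSucc, e3]
        simp only [e2]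
      rw [e4, e5]
      by_cases hc : Cond E (ext f)
      · rw [if_pos hc]
        by_cases hx : cmp x (ext f (look L a)) ∧ cmp x (ext f (look L b))
        · rw [if_pos (e0.2 ⟨hx, hc⟩), if_pos hx, mul_assoc]
        · rw [if_neg fun h => hx (e0.1 h).1, if_neg hx, zero_mul, mul_zero]
      · rw [if_neg hc, if_neg fun h => hc (e0.1 h).2]
    rw [Finset.sum_congr rfl fun x _ => e1 x]
    by_cases hc : Cond E (ext f)
    · simp only [if_pos hc]
      rw [← Finset.mul_sum, ← Finset.sum_mul]
      rfl
    · simp only [if_neg hc]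
      exact Finset.sum_const_zero

/-- The weight before a program. -/
noncomputable def Zg (g : (ℕ → Option (Fin q)) → ℤ) : List Cm → (ℕ → Option (Fin q)) → ℤ
  | [] => g
  | c :: cs => gs c (Zg g cs)

theorem T_run (g : (ℕ → Option (Fin q)) → ℤ) (cs : List Cm) :
    ∀ s : ℕ × List (ℕ × ℕ) × List (ℕ × ℕ), Inv s → T (cs.foldl stp s) g = T s (Zg g cs) := by
  induction cs with
  | nil => intro s _; rfl
  | cons c cs ih =>
    intro s hs
    rw [List.foldl_cons, ih _ (inv_stp hs c), T_stp hs c]
    rfl

theorem inv_run (cs : List Cm) :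
    ∀ s : ℕ × List (ℕ × ℕ) × List (ℕ × ℕ), Inv s → Inv (cs.foldl stp s) := by
  induction cs with
  | nil => intro s hs; exact hs
  | cons c cs ih =>
    intro s hs
    rw [List.foldl_cons]
    exact ih _ (inv_stp hs c)

theorem Zg_eq (cs : List Cm) : ∀ σ : ℕ → Option (Fin q), Zg (fun _ => 1) cs σ = Zc q σ cs := by
  induction cs with
  | nil => intro σ; rfl
  | cons c cs ih =>
    intro σ
    obtain ⟨a, b⟩ := c
    rcases b with _ | b
    · show (∑ x : Option (Fin q), wgt x * Zg (fun _ => 1) cs (Function.update σ a x)) =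
        ∑ s : Option (Fin q), wgt s * Zc q (Function.update σ a s) cs
      exact Finset.sum_congr rfl fun x _ => by rw [ih]
    · show edg (σ a) (σ b) * Zg (fun _ => 1) cs σ = edg (σ a) (σ b) * Zc q σ cs
      rw [ih]

theorem inv_zero : Inv (1, [], []) :=
  ⟨Nat.one_pos, fun p hp => absurd hp (List.not_mem_nil), fun e he => absurd he (List.not_mem_nil)⟩

theorem T_zero (g : (ℕ → Option (Fin q)) → ℤ) :
    T (1, [], []) g = ∑ x : Option (Fin q), wgt x * g (fun _ => x) := by
  classical
  unfold T
  refine Fintype.sum_equiv (Equiv.funUnique (Fin 1) (Option (Fin q))) _ _ fun f => ?_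
  have h1 : Cond [] (ext f) := fun e he => absurd he (List.not_mem_nil)
  rw [if_pos h1]
  have h2 : (fun a => ext f (look [] a)) = fun _ => f 0 := by
    funext a
    rfl
  have h3 : (Equiv.funUnique (Fin 1) (Option (Fin q))) f = f 0 := rfl
  rw [h3, h2]
  congr 1
  exact Fin.prod_univ_one _

open Classical in
theorem SS_eq (M : List (List Bool)) (N : ℕ) (h : M.length = N) : SS M q =
    ∑ f : Fin N → Option (Fin q), if ∀ u v : Fin N, u ≠ v ∧ (entry M u v = true ∨ entry M v u = true) →
      cmp (f u) (f v) then ∏ v, wgt (f v) else 0 := by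
  subst h
  unfold SS
  refine Finset.sum_congr rfl fun f _ => if_congr Iff.rfl rfl rfl

theorem entry_mat (cs : List Cm) {u v : ℕ} (hu : u < (run cs).1) (hv : v < (run cs).1) :
    entry (matOf cs) u v = decide ((u, v) ∈ (run cs).2.2) := by
  unfold entry matOf
  simp [List.getD_eq_getElem?_getD, hu, hv]

theorem cmp_symm {s s' : Option (Fin q)} (h : cmp s s') : cmp s' s := by
  rcases h with h | h | h
  · exact Or.inr (Or.inl h)
  · exact Or.inl h
  · exact Or.inr (Or.inr h.symm)

/-- The state sum is computed by the program. -/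
theorem PROG : S_PROG := by
  classical
  intro q cs
  have hinv : Inv (run cs) := inv_run cs _ inv_zero
  have hlen : (matOf cs).length = (run cs).1 := by
    unfold matOf
    rw [List.length_map, List.length_range]
  have e1 : SS (matOf cs) q = T (q := q) (run cs) fun _ => 1 := by
    rw [SS_eq _ _ hlen]
    unfold T
    refine Finset.sum_congr rfl fun f _ => if_congr ?_ (mul_one _).symm rfl
    constructor
    · intro h e he
      obtain ⟨h1, h2⟩ := hinv.edge e he
      have h3 := h ⟨e.1, h2⟩ ⟨e.2, h1.trans h2⟩ ⟨fun h4 => by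
        have := congrArg Fin.val h4
        simp only at this
        omega, Or.inl (by
          rw [entry_mat cs h2 (h1.trans h2)]
          exact decide_eq_true he)⟩
      unfold ext
      rw [dif_pos h2, dif_pos (h1.trans h2)]
      exact h3
    · rintro h u v ⟨_, h1⟩
      have hext : ∀ w : Fin (run cs).1, ext f w = f w := fun w => by
        unfold ext
        rw [dif_pos w.2]
      rw [entry_mat cs u.2 v.2, entry_mat cs v.2 u.2] at h1
      rcases h1 with h1 | h1
      · have h2 := h _ (of_decide_eq_true h1)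
        rwa [hext, hext] at h2
      · have h2 := h _ (of_decide_eq_true h1)
        rw [hext, hext] at h2
        exact cmp_symm h2
  rw [e1]
  have e2 : T (q := q) (run cs) (fun _ => 1) = T (1, [], []) (Zg (fun _ => 1) cs) :=
    T_run _ cs _ inv_zero
  rw [e2, T_zero]
  exact Finset.sum_congr rfl fun x _ => by rw [Zg_eq]

end Pool.Agent.H231.SCPROG
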